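import Pool.Agent.N502.FR.Stm

/-!
Project FR (helper502), HOO: the hook length formula (helper747).
-/

set_option autoImplicit false

open Finset

namespace Pool.Agent.N747.FR_HOO

open Pool.Agent.N502.FR
open Pool.Agent.H13R3.WB (IsLow prob)

open Classical in
lemma EE_succ {P : Type} [Fintype P] [PartialOrder P] (m : ℕ) (J : Finset P) :
    EE (m + 1) J = ∑ p ∈ univ.filter (fun p : P => p ∉ J ∧ IsLow (insert p J)),
      EE m (insert p J) := by
  unfold EE
  rw [Pool.Agent.H13R3.WB.D]

open Classical in
theorem main : Pool.Agent.N502.FR.S_HOO := by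
  intro hM P _ _ hF m
  induction m with
  | zero =>
    intro J hJ hc
    have hu : J = univ := by
      rw [← card_eq_iff_eq_univ]
      omega
    subst hu
    have h1 : EE 0 (univ : Finset P) = 1 := by
      unfold EE
      rw [Pool.Agent.H13R3.WB.D]
    rw [h1, filter_false_of_mem (fun v hv => by simp), prod_empty]
    rfl
  | succ m ih =>
    intro J hJ hc
    rw [EE_succ, sum_mul]
    have h1 : ∀ p ∈ univ.filter (fun p : P => p ∉ J ∧ IsLow (insert p J)),
        EE m (insert p J) * ∏ v ∈ univ.filter (fun v : P => v ∉ J), hk v =
          hk p * m.factorial := by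
      intro p hp
      rw [mem_filter] at hp
      obtain ⟨-, hpJ, hpl⟩ := hp
      have h2 := ih (insert p J) hpl (by rw [card_insert_of_notMem hpJ]; omega)
      have h3 : univ.filter (fun v : P => v ∉ J) =
          insert p (univ.filter (fun v : P => v ∉ insert p J)) := by
        ext v
        simp only [mem_filter, mem_univ, true_and, mem_insert, not_or]
        constructor
        · intro hv
          by_cases hvp : v = p
          · exact Or.inl hvp
          · exact Or.inr ⟨hvp, hv⟩
        · rintro (rfl | ⟨-, hv⟩)
          · exact hpJ
          · exact hv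
      rw [h3, prod_insert (by simp), ← h2]
      ring
    rw [sum_congr rfl h1, ← sum_mul, hM P hF (m + 1) J hJ hc, Nat.factorial_succ]

end Pool.Agent.N747.FR_HOO
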