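import Pool.Agent.N580.NS.Stm

/-!
# NS/RAD: solvable normal subgroups lie in `R`
-/

set_option autoImplicit false
set_option linter.all false

namespace Pool.Agent.N747

open Subgroup Pool.Agent.N580.NS

/-- a solvable subgroup contained in its derived subgroup is trivial -/
theorem eq_bot_of_perfect {G : Type} [Group G] (B : Subgroup G) (hB : B ≤ ⁅B, B⁆)
    (hs : Group.IsSolvable B) : B = ⊥ := by
  by_contra hne
  haveI : Nontrivial B := (Subgroup.nontrivial_iff_ne_bot B).2 hne
  haveI := hs
  have h1 : ⁅B, B⁆ < B := by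
    rw [← B.range_subtype, MonoidHom.range_eq_map, ← Subgroup.map_commutator,
      Subgroup.map_subtype_lt_map_subtype]
    exact Group.IsSolvable.commutator_lt_top_of_nontrivial B
  exact h1.not_ge hB

theorem sol_inter {T : Type} [Group T] (R : Subgroup T) {ι : Type} (A : ι → Subgroup T)
    (h : Fam R A) (N : Subgroup T) (hN : N.Normal) (hs : Group.IsSolvable N) (i : ι) :
    N ⊓ A i ≤ R := by
  haveI := h.hR
  haveI := h.hA i
  haveI := hN
  have hM : ((N ⊓ A i) ⊔ R).Normal := inferInstance
  rcases h.simple i ((N ⊓ A i) ⊔ R) le_sup_right (sup_le inf_le_right (h.le i))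
    (fun a _ x hx => hM.conj_mem x hx a) with h1 | h1
  · rw [← h1]
    exact le_sup_left
  · exfalso
    have hC : (⁅A i, A i⁆ ⊔ R).Normal := inferInstance
    have h2 : ⁅A i, A i⁆ ⊔ R = A i := by
      rcases h.simple i (⁅A i, A i⁆ ⊔ R) le_sup_right
        (sup_le (Subgroup.commutator_le_left _ _) (h.le i))
        (fun a _ x hx => hC.conj_mem x hx a) with h3 | h3
      · exact absurd (le_sup_left.trans h3.le) (h.nonab i)
      · exact h3
    set π := QuotientGroup.mk' R with hπ
    have hR0 : R.map π = ⊥ := by
      rw [Subgroup.map_eq_bot_iff, QuotientGroup.ker_mk']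
    have h3 : (A i).map π = (N ⊓ A i).map π := by
      conv_lhs => rw [← h1, Subgroup.map_sup, hR0, sup_bot_eq]
    have h4 : (A i).map π ≤ ⁅(A i).map π, (A i).map π⁆ := by
      conv_lhs => rw [← h2, Subgroup.map_sup, hR0, sup_bot_eq, Subgroup.map_commutator]
    have h5 : Group.IsSolvable ((A i).map π) := by
      rw [h3]
      haveI := hs
      haveI : Group.IsSolvable (N ⊓ A i : Subgroup T) :=
        Group.isSolvable_of_isSolvable_injective
          (Subgroup.inclusion_injective (inf_le_left : N ⊓ A i ≤ N))
      exact Group.isSolvable_of_surjective (π.subgroupMap_surjective (N ⊓ A i))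
    have h6 := eq_bot_of_perfect _ h4 h5
    rw [Subgroup.map_eq_bot_iff, QuotientGroup.ker_mk'] at h6
    exact h.nonab i ((Subgroup.commutator_le_left _ _).trans h6)

end Pool.Agent.N747

namespace Pool.Agent.N580.NS

theorem rad (h : DIR) : RAD := by
  intro T _ _ R ι _ A hF htop N hN hs
  classical
  refine (h T R ι A hF).2.1 Finset.univ N hN ?_ fun i _ =>
    Pool.Agent.N747.sol_inter R A hF N hN hs i
  have : (⨆ i ∈ (Finset.univ : Finset ι), A i) = ⨆ i, A i := by simp
  rw [this, htop]
  exact le_top

end Pool.Agent.N580.NS
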